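import Mathlib

/-!
# WR-MARC (helper79): Marcinkiewicz interpolation between `(2,2)` and `(∞,∞)`
-/

open MeasureTheory Set
open scoped ENNReal NNReal

namespace Q79.WR

theorem marc (p : ℝ) (hp : 2 < p) : ∃ C : ℝ≥0, ∀ (X Z : Type) [MeasurableSpace X]
    [MeasurableSpace Z] (μ : Measure X) [SFinite μ] (ν : Measure Z) (G : X → ℝ≥0) (F : Z → ℝ≥0)
    (D B : ℝ≥0), Measurable G → Measurable F → 0 < B →
    (∀ l : ℝ≥0, 0 < l → ∃ F1 : Z → ℝ≥0, Measurable F1 ∧ (∀ z, F z ≤ F1 z + B * l) ∧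
      ∫⁻ z, (F1 z : ℝ≥0∞) ^ 2 ∂ν ≤ D * ∫⁻ x in {x | l < G x}, (G x : ℝ≥0∞) ^ 2 ∂μ) →
    ∫⁻ z, (F z : ℝ≥0∞) ^ p ∂ν ≤ C * D * (B : ℝ≥0∞) ^ (p - 2) * ∫⁻ x, (G x : ℝ≥0∞) ^ p ∂μ := by
  have hp2 : 0 < p - 2 := by linarith
  have hp0 : 0 < p := by linarith
  refine ⟨Real.toNNReal (p * 4 / (p - 2) * 2 ^ (p - 2)), ?_⟩
  intro X Z _ _ μ _ ν G F D B hG hF hB hyp
  let μ' : Measure X := μ.withDensity (fun x => (G x : ℝ≥0∞) ^ 2)
  have hGm : Measurable fun x => (G x : ℝ≥0∞) ^ 2 := hG.coe_nnreal_ennreal.pow_const 2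
  have hBr : (0:ℝ) < B := by exact_mod_cast hB
  -- layer cake for `F`
  have h1 : ∫⁻ z, (F z : ℝ≥0∞) ^ p ∂ν =
      ENNReal.ofReal p * ∫⁻ t in Ioi (0:ℝ), ν {z | t < (F z : ℝ)} * ENNReal.ofReal (t ^ (p - 1)) := by
    rw [← lintegral_rpow_eq_lintegral_meas_lt_mul ν
      (Filter.Eventually.of_forall (fun z => NNReal.coe_nonneg _))
      hF.coe_nnreal_real.aemeasurable hp0]
    refine lintegral_congr (fun z => ?_)
    rw [← ENNReal.ofReal_rpow_of_nonneg (NNReal.coe_nonneg _) hp0.le, ENNReal.ofReal_coe_nnreal]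
  -- layer cake for `G`
  have h2 : ∫⁻ x, ENNReal.ofReal ((2 * (B : ℝ) * (G x : ℝ)) ^ (p - 2)) ∂μ' =
      ENNReal.ofReal (p - 2) * ∫⁻ t in Ioi (0:ℝ), μ' {x | t < 2 * (B : ℝ) * (G x : ℝ)} *
        ENNReal.ofReal (t ^ (p - 2 - 1)) := by
    exact lintegral_rpow_eq_lintegral_meas_lt_mul μ'
      (Filter.Eventually.of_forall (fun x => by
        have := NNReal.coe_nonneg (G x)
        simp only [Pi.zero_apply]
        positivity))
      (hG.coe_nnreal_real.const_mul _).aemeasurable hp2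
  -- the comparison
  have h3 : ∀ t ∈ Ioi (0:ℝ), ν {z | t < (F z : ℝ)} * ENNReal.ofReal (t ^ (p - 1)) ≤
      (4 * D) * (μ' {x | t < 2 * (B : ℝ) * (G x : ℝ)} * ENNReal.ofReal (t ^ (p - 2 - 1))) := by
    intro t ht
    have ht0 : 0 < t := ht
    let l : ℝ≥0 := ⟨t / (2 * B), by positivity⟩
    have hl : 0 < l := by
      rw [← NNReal.coe_pos]
      change 0 < t / (2 * B)
      positivity
    obtain ⟨F1, hF1, hF2, hF3⟩ := hyp l hl
    have hBl : ((B * l : ℝ≥0) : ℝ) = t / 2 := by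
      rw [NNReal.coe_mul]
      change (B : ℝ) * (t / (2 * B)) = t / 2
      field_simp
    have hsub : {z | t < (F z : ℝ)} ⊆ {z | ENNReal.ofReal ((t / 2) ^ 2) ≤ (F1 z : ℝ≥0∞) ^ 2} := by
      intro z hz
      have hz' : t < (F z : ℝ) := hz
      have h4 : (F z : ℝ) ≤ F1 z + t / 2 := by
        rw [← hBl]
        exact_mod_cast hF2 z
      have h5 : t / 2 ≤ F1 z := by linarith
      change ENNReal.ofReal ((t / 2) ^ 2) ≤ (F1 z : ℝ≥0∞) ^ 2
      rw [← ENNReal.ofReal_coe_nnreal, ← ENNReal.ofReal_pow (NNReal.coe_nonneg _)]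
      apply ENNReal.ofReal_le_ofReal
      gcongr
    have hmk : ENNReal.ofReal ((t / 2) ^ 2) * ν {z | t < (F z : ℝ)} ≤ ∫⁻ z, (F1 z : ℝ≥0∞) ^ 2 ∂ν := by
      refine le_trans ?_ (mul_meas_ge_le_lintegral
        (hF1.coe_nnreal_ennreal.pow_const 2) (ENNReal.ofReal ((t / 2) ^ 2)))
      gcongr
    have hset : {x | l < G x} = {x | t < 2 * (B : ℝ) * (G x : ℝ)} := by
      ext x
      simp only [mem_ofPred_eq]
      rw [← NNReal.coe_lt_coe]
      change t / (2 * B) < (G x : ℝ) ↔ _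
      rw [div_lt_iff₀ (by positivity)]
      constructor <;> intro h <;> linarith
    have hμ' : μ' {x | t < 2 * (B : ℝ) * (G x : ℝ)} =
        ∫⁻ x in {x | l < G x}, (G x : ℝ≥0∞) ^ 2 ∂μ := by
      rw [hset, withDensity_apply]
      exact measurableSet_lt measurable_const (hG.coe_nnreal_real.const_mul _)
    have hpow : ENNReal.ofReal (t ^ (p - 1)) =
        4 * ENNReal.ofReal ((t / 2) ^ 2) * ENNReal.ofReal (t ^ (p - 2 - 1)) := by
      have e4 : (4 : ℝ≥0∞) = ENNReal.ofReal 4 := by norm_num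
      rw [e4, ← ENNReal.ofReal_mul (by norm_num), ← ENNReal.ofReal_mul (by positivity)]
      congr 1
      have : p - 1 = 2 + (p - 2 - 1) := by ring
      rw [this, Real.rpow_add ht0, Real.rpow_two]
      ring
    rw [hpow, hμ']
    calc ν {z | t < (F z : ℝ)} *
          (4 * ENNReal.ofReal ((t / 2) ^ 2) * ENNReal.ofReal (t ^ (p - 2 - 1)))
        = 4 * ENNReal.ofReal (t ^ (p - 2 - 1)) *
          (ENNReal.ofReal ((t / 2) ^ 2) * ν {z | t < (F z : ℝ)}) := by ring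
      _ ≤ 4 * ENNReal.ofReal (t ^ (p - 2 - 1)) *
          (D * ∫⁻ x in {x | l < G x}, (G x : ℝ≥0∞) ^ 2 ∂μ) := by
          exact mul_le_mul' le_rfl (hmk.trans hF3)
      _ = _ := by ring
  have h4 : ∫⁻ t in Ioi (0:ℝ), ν {z | t < (F z : ℝ)} * ENNReal.ofReal (t ^ (p - 1)) ≤
      (4 * D) * ∫⁻ t in Ioi (0:ℝ), μ' {x | t < 2 * (B : ℝ) * (G x : ℝ)} *
        ENNReal.ofReal (t ^ (p - 2 - 1)) := by
    rw [← lintegral_const_mul' _ _ (by
      exact ENNReal.mul_ne_top (by norm_num) ENNReal.coe_ne_top)]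
    exact setLIntegral_mono' measurableSet_Ioi h3
  -- the right side
  have h5 : ∫⁻ x, ENNReal.ofReal ((2 * (B : ℝ) * (G x : ℝ)) ^ (p - 2)) ∂μ' =
      ENNReal.ofReal (2 ^ (p - 2)) * (B : ℝ≥0∞) ^ (p - 2) * ∫⁻ x, (G x : ℝ≥0∞) ^ p ∂μ := by
    rw [lintegral_withDensity_eq_lintegral_mul _ hGm (by fun_prop), ← lintegral_const_mul'']
    · refine lintegral_congr (fun x => ?_)
      simp only [Pi.mul_apply]
      have e1 : ENNReal.ofReal ((2 * (B : ℝ) * (G x : ℝ)) ^ (p - 2)) =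
          ENNReal.ofReal (2 ^ (p - 2)) * (B : ℝ≥0∞) ^ (p - 2) * (G x : ℝ≥0∞) ^ (p - 2) := by
        rw [Real.mul_rpow (by positivity) (NNReal.coe_nonneg _),
          Real.mul_rpow (by positivity) (NNReal.coe_nonneg _),
          ENNReal.ofReal_mul (by positivity), ENNReal.ofReal_mul (by positivity),
          ← ENNReal.ofReal_rpow_of_nonneg (NNReal.coe_nonneg B) hp2.le,
          ← ENNReal.ofReal_rpow_of_nonneg (NNReal.coe_nonneg (G x)) hp2.le,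
          ENNReal.ofReal_coe_nnreal, ENNReal.ofReal_coe_nnreal]
      have e2 : (G x : ℝ≥0∞) ^ p = (G x : ℝ≥0∞) ^ (p - 2) * (G x : ℝ≥0∞) ^ 2 := by
        rw [← ENNReal.rpow_two, ← ENNReal.rpow_add_of_nonneg _ _ hp2.le (by norm_num)]
        congr 1
        ring
      rw [e1, e2]
      ring
    · exact (hG.coe_nnreal_ennreal.pow_const p).aemeasurable
  -- conclusion
  have hp2' : ENNReal.ofReal (p - 2) ≠ 0 := by
    rw [Ne, ENNReal.ofReal_eq_zero]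
    linarith
  have h6 : ∫⁻ t in Ioi (0:ℝ), μ' {x | t < 2 * (B : ℝ) * (G x : ℝ)} *
        ENNReal.ofReal (t ^ (p - 2 - 1)) = (ENNReal.ofReal (p - 2))⁻¹ *
      (ENNReal.ofReal (2 ^ (p - 2)) * (B : ℝ≥0∞) ^ (p - 2) * ∫⁻ x, (G x : ℝ≥0∞) ^ p ∂μ) := by
    rw [← h5, h2, ← mul_assoc, ENNReal.inv_mul_cancel hp2' ENNReal.ofReal_ne_top, one_mul]
  rw [h1]
  calc ENNReal.ofReal p * ∫⁻ t in Ioi (0:ℝ), ν {z | t < (F z : ℝ)} * ENNReal.ofReal (t ^ (p - 1))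
      ≤ ENNReal.ofReal p * ((4 * D) * ((ENNReal.ofReal (p - 2))⁻¹ *
      (ENNReal.ofReal (2 ^ (p - 2)) * (B : ℝ≥0∞) ^ (p - 2) * ∫⁻ x, (G x : ℝ≥0∞) ^ p ∂μ))) := by
        rw [← h6]
        gcongr
    _ = (ENNReal.ofReal p * 4 * (ENNReal.ofReal (p - 2))⁻¹ * ENNReal.ofReal (2 ^ (p - 2))) *
        D * (B : ℝ≥0∞) ^ (p - 2) * ∫⁻ x, (G x : ℝ≥0∞) ^ p ∂μ := by ring
    _ = _ := by
        congr 3
        have e4 : (4 : ℝ≥0∞) = ENNReal.ofReal 4 := by norm_num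
        rw [e4, ← ENNReal.ofReal_inv_of_pos hp2, ← ENNReal.ofReal_mul hp0.le,
          ← ENNReal.ofReal_mul (by positivity), ← ENNReal.ofReal_mul (by positivity),
          ENNReal.ofReal]
        congr 2

end Q79.WR
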